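import Pool.Agent.helper20.FX.Spec

set_option autoImplicit false

namespace Pool.Agent.FXM

open Finset

theorem WINR_kpow (k : ℕ) (hk : 3 ≤ k) (m : ℕ) :
    ((k : ℝ)) ^ m = (2 : ℝ) ^ ((m : ℝ) * Real.logb 2 k) := by
  have hk0 : (0 : ℝ) < k := by
    have : 0 < k := by omega
    exact_mod_cast this
  rw [mul_comm, Real.rpow_mul (by norm_num), Real.rpow_logb (by norm_num) (by norm_num) hk0,
    Real.rpow_natCast]

theorem WINR (hWIN : WIN_stmt) (hPRB : PRB_stmt) : WINR_stmt := by
  intro k M a d U T hodd hk ha hne hU hdvd h1 h2 h3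
  obtain ⟨_, hPr1, hPr⟩ := hPRB d
  have hk0 : (0 : ℝ) < k := by
    have : 0 < k := by omega
    exact_mod_cast this
  have ha0 : (0 : ℝ) < a := by exact_mod_cast ha
  have hL0 : 0 ≤ Real.logb 2 k := by
    apply Real.logb_nonneg (by norm_num)
    have : 1 ≤ k := by omega
    exact_mod_cast this
  have hM0 : (0 : ℝ) ≤ M := Nat.cast_nonneg M
  have hdivle : ((M / a : ℕ) : ℝ) ≤ (M : ℝ) / a := Nat.cast_div_le
  have two_nat : ∀ m : ℕ, (2 : ℝ) ^ (m : ℝ) = (2 : ℝ) ^ m := fun m => Real.rpow_natCast 2 m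
  have hXdef : XX k M = (M : ℝ) * Real.logb 2 k := rfl
  apply hWIN k M a d U hodd hk ha hne hU hdvd (fun n hn => (h3 n hn).1)
  · -- first size hypothesis
    have hA : 2 * Pr d * k ^ (M / a) ≤ 2 ^ (U.card * a) := by
      have hreal : ((2 * Pr d * k ^ (M / a) : ℕ) : ℝ) ≤ ((2 ^ (U.card * a) : ℕ) : ℝ) := by
        push_cast
        rw [WINR_kpow k hk]
        have e1 : (2 : ℝ) * (Pr d : ℝ) * (2 : ℝ) ^ (((M / a : ℕ) : ℝ) * Real.logb 2 k) ≤
            (2 : ℝ) ^ (1 : ℝ) * (2 : ℝ) ^ ((d : ℝ) * (d + 1) / 2) *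
              (2 : ℝ) ^ (((M / a : ℕ) : ℝ) * Real.logb 2 k) := by
          rw [Real.rpow_one]
          gcongr
        refine le_trans e1 ?_
        rw [← Real.rpow_add (by norm_num), ← Real.rpow_add (by norm_num), ← two_nat]
        apply Real.rpow_le_rpow_of_exponent_le (by norm_num)
        push_cast
        have e2 : ((M / a : ℕ) : ℝ) * Real.logb 2 k ≤ XX k M / a := by
          rw [hXdef]
          calc ((M / a : ℕ) : ℝ) * Real.logb 2 k ≤ ((M : ℝ) / a) * Real.logb 2 k :=
                mul_le_mul_of_nonneg_right hdivle hL0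
            _ = (M : ℝ) * Real.logb 2 k / a := by ring
        linarith
      exact_mod_cast hreal
    refine lt_of_le_of_lt hA ?_
    have hB : 2 ^ (U.card * a) = ∏ _n ∈ U, 2 ^ a := by
      rw [prod_const, ← pow_mul, mul_comm]
    rw [hB]
    apply prod_lt_prod_of_nonempty
    · intro n _
      positivity
    · intro n hn
      have hna := (hU n hn).1
      have h5 : 2 ^ a ≤ 2 ^ n := Nat.pow_le_pow_right (by norm_num) hna
      have h6 : 2 ^ n ≤ k * 2 ^ n := Nat.le_mul_of_pos_left _ (by omega)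
      omega
    · exact hne
  · -- second size hypothesis
    intro n hn
    have hna := (hU n hn).1
    have hnd := (hU n hn).2
    have hn0 : 0 < n := by omega
    have hnR : (0 : ℝ) < n := by exact_mod_cast hn0
    have hsub : M / n ≤ M / a := Nat.div_le_div_left hna ha
    have hB : 2 * U.card * (2 ^ U.card * Pr d) * k ^ (M / a - M / n) * 2 ^ (M % n) ≤
        k * 2 ^ n := by
      have hreal : ((2 * U.card * (2 ^ U.card * Pr d) * k ^ (M / a - M / n) * 2 ^ (M % n) : ℕ) : ℝ)
          ≤ ((k * 2 ^ n : ℕ) : ℝ) := by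
        push_cast
        rw [WINR_kpow k hk]
        have hc : (U.card : ℝ) ≤ (2 : ℝ) ^ U.card := by
          have : U.card ≤ 2 ^ U.card := Nat.lt_two_pow_self.le
          exact_mod_cast this
        have hPr0 : (0 : ℝ) ≤ Pr d := Nat.cast_nonneg _
        have e1 : (2 : ℝ) * U.card * (2 ^ U.card * (Pr d : ℝ)) *
            (2 : ℝ) ^ (((M / a - M / n : ℕ) : ℝ) * Real.logb 2 k) * 2 ^ (M % n) ≤
            (2 : ℝ) * 2 ^ U.card * (2 ^ U.card * (2 : ℝ) ^ ((d : ℝ) * (d + 1) / 2)) *
            (2 : ℝ) ^ (((M / a - M / n : ℕ) : ℝ) * Real.logb 2 k) * 2 ^ (M % n) := by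
          gcongr
        refine le_trans e1 ?_
        have e3 : (2 : ℝ) * 2 ^ U.card * (2 ^ U.card * (2 : ℝ) ^ ((d : ℝ) * (d + 1) / 2)) *
            (2 : ℝ) ^ (((M / a - M / n : ℕ) : ℝ) * Real.logb 2 k) * 2 ^ (M % n) =
            (2 : ℝ) ^ (1 + (U.card : ℝ) + ((U.card : ℝ) + (d : ℝ) * (d + 1) / 2) +
              ((M / a - M / n : ℕ) : ℝ) * Real.logb 2 k + ((M % n : ℕ) : ℝ)) := by
          rw [Real.rpow_add (by norm_num), Real.rpow_add (by norm_num),
            Real.rpow_add (by norm_num), Real.rpow_add (by norm_num),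
            Real.rpow_add (by norm_num), Real.rpow_one, two_nat, two_nat]
        have e4 : (k : ℝ) * 2 ^ n = (2 : ℝ) ^ (Real.logb 2 k + (n : ℝ)) := by
          rw [Real.rpow_add (by norm_num), Real.rpow_logb (by norm_num) (by norm_num) hk0, two_nat]
        rw [e3, e4]
        apply Real.rpow_le_rpow_of_exponent_le (by norm_num)
        have e5 : ((M / a - M / n : ℕ) : ℝ) ≤ (M : ℝ) * d / (a : ℝ) ^ 2 + 1 := by
          rw [Nat.cast_sub hsub]
          have h7 : (M : ℝ) / n - 1 ≤ ((M / n : ℕ) : ℝ) := by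
            have h8 : M < n * (M / n) + n := by
              have := Nat.div_add_mod M n
              have := Nat.mod_lt M hn0
              omega
            have h9 : (M : ℝ) < n * ((M / n : ℕ) : ℝ) + n := by exact_mod_cast h8
            have h10 : (M : ℝ) / n < ((M / n : ℕ) : ℝ) + 1 := by
              rw [div_lt_iff₀ hnR]
              linarith
            linarith
          have h11 : (M : ℝ) / a - (M : ℝ) / n ≤ (M : ℝ) * d / (a : ℝ) ^ 2 := by
            have hna' : (a : ℝ) ≤ n := by exact_mod_cast hna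
            have hnd' : (n : ℝ) - a ≤ d := by
              have : (n : ℝ) ≤ (a : ℝ) + d := by exact_mod_cast hnd
              linarith
            have h12 : (M : ℝ) / a - (M : ℝ) / n = (M : ℝ) * (n - a) / (a * n) := by
              field_simp
            rw [h12]
            have h13 : (M : ℝ) * (n - a) / (a * n) ≤ (M : ℝ) * d / (a * n) := by
              gcongr
            have h14 : (M : ℝ) * d / (a * n) ≤ (M : ℝ) * d / (a : ℝ) ^ 2 := by
              apply div_le_div_of_nonneg_left (by positivity) (by positivity)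
              rw [sq]
              gcongr
            linarith
          linarith
        have e6 : ((M / a - M / n : ℕ) : ℝ) * Real.logb 2 k ≤
            XX k M * d / (a : ℝ) ^ 2 + Real.logb 2 k := by
          calc ((M / a - M / n : ℕ) : ℝ) * Real.logb 2 k
              ≤ ((M : ℝ) * d / (a : ℝ) ^ 2 + 1) * Real.logb 2 k :=
                mul_le_mul_of_nonneg_right e5 hL0
            _ = XX k M * d / (a : ℝ) ^ 2 + Real.logb 2 k := by rw [hXdef]; ring
        have e7 := (h3 n hn).2
        linarith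
      exact_mod_cast hreal
    omega

end Pool.Agent.FXM
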